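import Pool.Agent.H86.ZC.F

/-!
# Extreme values near the centre in every subgroup of characters, and at the quotients of every set of characters

There is an absolute constant `Z₀` such that for all primes `q` and all `Z ≥ Z₀` the following holds. Write
`V(Z) = exp ((1/3000) √(log Z log log log Z / log log Z))` (`size Z`), and let `χ` be large at level `Z` (`LargeNear Z χ`)
if `|L(1/2 + i u, χ)| ≥ V(Z)` for some real `u` with `|u| ≤ √(log q / log Z)`.

(1) For every set `S` of at least `Z` Dirichlet characters modulo `q` at least `|S|² / Z` ordered pairs `(χ, χ')` of distinct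
elements of `S` have a quotient `χ χ'⁻¹` which is large at level `Z`.

(2) Every group `H` of at least `Z` Dirichlet characters modulo `q` contains at least `|H| / Z` characters `χ ≠ 1` which are large
at level `Z`. So (`Z = |H|`) EVERY subgroup `H` of order at least `Z₀` contains a `χ ≠ 1` with `|L(1/2 + i u, χ)| ≥ V(|H|)` for some
`|u| ≤ √(log q / log |H|)`.

(3) If `ψ` is a character modulo `q` and `Z ≤ J ≤ ord ψ` then `ψ ^ h` is large at level `Z` for at least `J / Z` integers
`1 ≤ h < J`.

For subgroups with `|H| ≥ c q ^ ε`, which are all the subgroups of the question, `|u| ≤ (1 + o(1)) / √ε` is bounded, and `V(|H|)` is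
`exp ((√ε / 3000 + o(1)) √(log q log log log q / log log q))`, which is, up to the constant, the best known lower bound in the full
group of characters. All the previous results for an arbitrary subgroup need `|H| ≥ q ^ (1/2 + ε)` (or almost that): the central
value is a Dirichlet polynomial of length at least about `√q`, and the trivial character has to be removed.

Method. A Gaussian average of `L(1/2 + i u, χ)` over `u` with the variance `1 / (2 log Z)` is, for `χ ≠ 1`, the sum
`∑ χ(n) n ^ (-1/2) exp (-(log n)² / (4 log Z))` with positive coefficients, whose value at the trivial character is only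
`O(Z ^ (9/25))`; the points `|u| > √(log q / log Z)` contribute at most `1`, by the inequality of Pólya and Vinogradov. The values at
the quotients of the elements of a set have nonnegative sums against every `χ(n)`; with the resonator of the library files
`Pool.Agent.X24.Coset`, `Pool.Agent.X108.CH` and this positivity the average is large for some quotient. The graph argument of
the library file `Pool.Agent.X108.CH.Pairs` gives the number of the quotients.
-/

set_option autoImplicit false

namespace Pool.Agent.Results.MP_3e6494_nt.NearCentralEverySubgroup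

open Finset
open scoped Classical

/-- `V(Z) = exp ((1/3000) √(log Z log log log Z / log log Z))`. -/
noncomputable def size (Z : ℝ) : ℝ :=
  Real.exp (1 / 3000 * √(Real.log Z * Real.log (Real.log (Real.log Z)) / Real.log (Real.log Z)))

/-- `|L(1/2 + i u, χ)| ≥ V(Z)` for some real `u` with `|u| ≤ √(log q / log Z)`. -/
def LargeNear {q : ℕ} [NeZero q] (Z : ℝ) (χ : DirichletCharacter ℂ q) : Prop :=
  ∃ u : ℝ, |u| ≤ √(Real.log q / Real.log Z) ∧
    size Z ≤ ‖DirichletCharacter.LFunction χ (1 / 2 + u * Complex.I)‖

/-- **Extreme values near the centre in every subgroup, and at the quotients of every set of characters.** -/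
theorem result : ∃ Z₀ : ℝ, 256 ≤ Z₀ ∧ ∀ (q : ℕ) [Fact q.Prime] (Z : ℝ), Z₀ ≤ Z →
    (∀ S : Finset (DirichletCharacter ℂ q), Z ≤ (S.card : ℝ) →
      (S.card : ℝ) ^ 2 / Z ≤ (((S ×ˢ S).filter fun p => p.1 ≠ p.2 ∧ LargeNear Z (p.1 * p.2⁻¹)).card : ℝ)) ∧
    (∀ H : Subgroup (DirichletCharacter ℂ q), Z ≤ (Nat.card H : ℝ) →
      (Nat.card H : ℝ) / Z ≤ (({χ : DirichletCharacter ℂ q | χ ∈ H ∧ χ ≠ 1 ∧ LargeNear Z χ}).ncard : ℝ)) ∧
    (∀ (ψ : DirichletCharacter ℂ q) (J : ℕ), J ≤ orderOf ψ → Z ≤ (J : ℝ) →
      (J : ℝ) / Z ≤ (((Ico 1 J).filter fun h => LargeNear Z (ψ ^ h)).card : ℝ)) := by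
  obtain ⟨Z₀, hZ₀, h⟩ := Pool.Agent.H86.ZC.count
  refine ⟨Z₀, hZ₀, fun q hq Z hZ => ⟨fun S hS => ?_, fun H hH => ?_, fun ψ J hJ hJZ => ?_⟩⟩
  · have hZ0 : 0 < Z := by linarith
    have h1 := h q Z hZ S hS
    have h2 : 0 ≤ (S.card : ℝ) ^ 2 / Z := by positivity
    have h3 : (Pool.Agent.X108.CH.PR S (Pool.Agent.H86.ZC.EE Z)).card ≤
        ((S ×ˢ S).filter fun p => p.1 ≠ p.2 ∧ LargeNear Z (p.1 * p.2⁻¹)).card := by
      refine card_le_card fun p hp => ?_
      rw [Pool.Agent.X108.CH.mem_PR] at hp
      rw [mem_filter, mem_product]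
      exact ⟨hp.1, hp.2.1, hp.2.2.2⟩
    have h4 : ((Pool.Agent.X108.CH.PR S (Pool.Agent.H86.ZC.EE Z)).card : ℝ) ≤
        (((S ×ˢ S).filter fun p => p.1 ≠ p.2 ∧ LargeNear Z (p.1 * p.2⁻¹)).card : ℝ) := by exact_mod_cast h3
    linarith
  · exact Pool.Agent.H86.ZC.group_count (by linarith) (h q Z hZ) H hH
  · exact Pool.Agent.H86.ZC.power_count (by linarith) (h q Z hZ) ψ J hJ hJZ

end Pool.Agent.Results.MP_3e6494_nt.NearCentralEverySubgroup
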